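import Pool.Agent.Results.MP_0f8365_gt.CountableFactor

/-!
# Spaces with a dense union of countably many continuous images of a Grothendieck space

Let `X` be a Grothendieck space and let `Z` be a space in which the union of countably many
continuous images of `X` is dense. Then `Z` is Grothendieck if and only if it is weakly
Grothendieck; and this is the case if the images cover `Z`. In particular `X × Y` is Grothendieck
for every countable `Y` (the question), and for every separable `Y` the product `X × Y` is
Grothendieck if and only if it is weakly Grothendieck.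

Proof. Let `B ⊆ S ⊆ C_p(Z)` be countably compact in `S` and let `K` be its compact closure, in
`C_p(Z)` if `Z` is weakly Grothendieck, and in `C_p(X)^I` if the images cover `Z`. If some `g` in
`K` is not in `S`, then `w ↦ ∑ 2^(-i) min(|w ∘ h i - g ∘ h i|, 1)` maps `S` to the complement of the
zero function of `C_p(X)` and `g` to zero, which contradicts the g-property of that complement.
-/

open Set Topology Filter

namespace Pool.Agent.Results.MP_0f8365_gt.SeparableFactor

open Pool.Agent.Results.MP_0f8365_gt.CountableFactor

universe u v w

/-- The map `C_p(Z) → C_p(X)^I`, `f ↦ (f ∘ h i)`. -/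
def pull {X : Type u} {Z : Type v} {I : Type w} [TopologicalSpace X] [TopologicalSpace Z]
    (h : I → X → Z) (hc : ∀ i, Continuous (h i)) (f : Cp Z) (i : I) : Cp X :=
  ⟨fun x => f.1 (h i x), f.2.comp (hc i)⟩

theorem pull_continuous {X : Type u} {Z : Type v} {I : Type w} [TopologicalSpace X]
    [TopologicalSpace Z] (h : I → X → Z) (hc : ∀ i, Continuous (h i)) :
    Continuous (pull h hc) := by
  refine continuous_pi fun i => Continuous.subtype_mk (continuous_pi fun x => ?_) _
  exact (continuous_apply (h i x)).comp continuous_subtype_val

theorem pull_inducing {X : Type u} {Z : Type v} {I : Type w} [TopologicalSpace X]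
    [TopologicalSpace Z] (h : I → X → Z) (hc : ∀ i, Continuous (h i))
    (hs : ∀ z, ∃ i x, h i x = z) : IsInducing (pull h hc) := by
  have h1 := pull_continuous h hc
  choose i x hix using hs
  have h2 : Continuous (fun (g : I → Cp X) (z : Z) => (g (i z)).1 (x z)) :=
    continuous_pi fun z =>
      (continuous_apply (x z)).comp (continuous_subtype_val.comp (continuous_apply (i z)))
  refine IsInducing.of_comp h1 h2 ?_
  have h3 : ((fun (g : I → Cp X) (z : Z) => (g (i z)).1 (x z)) ∘ pull h hc) =
      (Subtype.val : Cp Z → Z → ℝ) := by
    funext f z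
    show f.1 (h (i z) (x z)) = f.1 z
    rw [hix]
  rw [h3]
  exact IsInducing.subtypeVal

/-- The key step: a countably compact subset of `S` does not accumulate at a point `g` which is
separated from all points of `S` by the countably many coordinates. -/
theorem key {X : Type u} {S : Type v} {I : Type w} [TopologicalSpace X] [TopologicalSpace S]
    [T1Space S] [Countable I] (hX : Grothendieck X) {B : Set S} (hB : CountablyCompactIn B)
    (j : S → I → Cp X) (hj : Continuous j) (g : I → Cp X) (hg : g ∈ closure (j '' B)) :
    g ∈ range j := by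
  by_contra hgr
  let z : Cp X := ⟨fun _ => 0, continuous_const⟩
  have hne : ∀ s : S, Phi g (j s) ∈ ({z}ᶜ : Set (Cp X)) := fun s hs =>
    hgr ⟨s, Phi_eq_zero hs⟩
  let q : S → ({z}ᶜ : Set (Cp X)) := fun s => ⟨Phi g (j s), hne s⟩
  have hq : Continuous q := Continuous.subtype_mk ((Phi_continuous g).comp hj) _
  have hcc : CountablyCompactIn (q '' B) := hB.image hq
  have h1 : IsCompact (closure (q '' B)) := hX _ _ hcc
  have h2 : IsClosed ((Subtype.val : ({z}ᶜ : Set (Cp X)) → Cp X) '' closure (q '' B)) :=
    (h1.image continuous_subtype_val).isClosed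
  have h3 : Phi g '' closure (j '' B) ⊆ Subtype.val '' closure (q '' B) := by
    refine (image_closure_subset_closure_image (Phi_continuous g)).trans
      (closure_minimal ?_ h2)
    rintro _ ⟨_, ⟨s, hs, rfl⟩, rfl⟩
    exact ⟨q s, subset_closure (mem_image_of_mem q hs), rfl⟩
  obtain ⟨t, -, ht⟩ := h3 (mem_image_of_mem _ hg)
  rw [Phi_self] at ht
  exact t.2 ht

/-- If the images cover `Z`, then `Z` is Grothendieck. -/
theorem of_cover {X : Type u} {Z : Type v} {I : Type w} [TopologicalSpace X] [TopologicalSpace Z]
    [Countable I] (hX : Grothendieck X) (h : I → X → Z) (hc : ∀ i, Continuous (h i))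
    (hs : ∀ z, ∃ i x, h i x = z) : Grothendieck Z := by
  intro S B hB
  have hweak := grothendieck_weakly hX
  let j : S → (I → Cp X) := fun s => pull h hc s.1
  have hj : IsInducing j := (pull_inducing h hc hs).comp IsInducing.subtypeVal
  have hjc : Continuous j := hj.continuous
  have hK : ∀ i, IsCompact (closure ((fun s : S => j s i) '' B)) := fun i =>
    hweak _ (hB.image ((continuous_apply i).comp hjc))
  have hP : IsCompact (Set.pi univ fun i => closure ((fun s : S => j s i) '' B)) :=
    isCompact_univ_pi hK
  have hsub : closure (j '' B) ⊆ Set.pi univ fun i => closure ((fun s : S => j s i) '' B) := by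
    refine closure_minimal ?_ hP.isClosed
    rintro _ ⟨s, hs, rfl⟩ i -
    exact subset_closure ⟨s, hs, rfl⟩
  have hcomp : IsCompact (closure (j '' B)) := hP.of_isClosed_subset isClosed_closure hsub
  have hrange : closure (j '' B) ⊆ range j := fun g hg => key hX hB j hjc g hg
  rw [hj.closure_eq_preimage_closure_image B]
  exact (hj.isCompact_preimage_iff hrange).2 hcomp

/-- If the union of the images is dense and `Z` is weakly Grothendieck, then `Z` is
Grothendieck. -/
theorem of_dense {X : Type u} {Z : Type v} {I : Type w} [TopologicalSpace X] [TopologicalSpace Z]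
    [Countable I] (hX : Grothendieck X) (h : I → X → Z) (hc : ∀ i, Continuous (h i))
    (hd : Dense {z | ∃ i x, h i x = z}) (hZ : WeaklyGrothendieck Z) : Grothendieck Z := by
  intro S B hB
  have hv : IsInducing (Subtype.val : S → Cp Z) := IsInducing.subtypeVal
  have hcomp : IsCompact (closure ((Subtype.val : S → Cp Z) '' B)) :=
    hZ _ (hB.image continuous_subtype_val)
  have hrange : closure ((Subtype.val : S → Cp Z) '' B) ⊆ range (Subtype.val : S → Cp Z) := by
    intro g hg
    have hjc : Continuous (fun s : S => pull h hc s.1) :=
      (pull_continuous h hc).comp continuous_subtype_val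
    have hg' : pull h hc g ∈ closure ((fun s : S => pull h hc s.1) '' B) := by
      have h1 := image_closure_subset_closure_image (pull_continuous h hc)
        (mem_image_of_mem _ hg)
      rwa [image_image] at h1
    obtain ⟨s, hs⟩ := key hX hB _ hjc _ hg'
    refine ⟨s, ?_⟩
    apply Subtype.ext
    refine Continuous.ext_on hd s.1.2 g.2 ?_
    rintro _ ⟨i, x, rfl⟩
    exact congrFun (congrArg Subtype.val (congrFun hs i)) x
  rw [hv.closure_eq_preimage_closure_image B]
  exact (hv.isCompact_preimage_iff hrange).2 hcomp

/-- Let `X` be a Grothendieck space. (1) If `Z` is a space with a dense union of countably many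
continuous images of `X`, then `Z` is Grothendieck if and only if it is weakly Grothendieck, and
this is the case if the images cover `Z`. (2) `X × Y` is Grothendieck for every countable `Y`.
(3) For every separable `Y`, the product `X × Y` is Grothendieck if and only if it is weakly
Grothendieck. -/
theorem result (X : Type u) [TopologicalSpace X] (hX : Grothendieck X) :
    (∀ (Z : Type v) (I : Type w) [TopologicalSpace Z] [Countable I] (h : I → X → Z),
      (∀ i, Continuous (h i)) → Dense {z | ∃ i x, h i x = z} →
      (Grothendieck Z ↔ WeaklyGrothendieck Z) ∧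
      ((∀ z, ∃ i x, h i x = z) → Grothendieck Z)) ∧
    (∀ (Y : Type v) [TopologicalSpace Y] [Countable Y], Grothendieck (X × Y)) ∧
    (∀ (Y : Type v) [TopologicalSpace Y] [TopologicalSpace.SeparableSpace Y],
      Grothendieck (X × Y) ↔ WeaklyGrothendieck (X × Y)) := by
  refine ⟨fun Z I _ _ h hc hd => ⟨⟨grothendieck_weakly, of_dense hX h hc hd⟩, of_cover hX h hc⟩,
    fun Y _ _ => ?_, fun Y _ _ => ⟨grothendieck_weakly, ?_⟩⟩
  · exact of_cover hX (fun (y : Y) (x : X) => (x, y)) (fun y => by fun_prop)
      (fun z => ⟨z.2, z.1, rfl⟩)
  · obtain ⟨D, hDc, hDd⟩ := TopologicalSpace.exists_countable_dense Y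
    have : Countable D := hDc.to_subtype
    refine of_dense hX (fun (y : D) (x : X) => (x, (y : Y))) (fun y => by fun_prop) ?_
    have h1 : {z : X × Y | ∃ (i : D) (x : X), (x, (i : Y)) = z} = univ ×ˢ D := by
      ext ⟨x, y⟩
      constructor
      · rintro ⟨i, x', h⟩
        rw [Prod.mk.injEq] at h
        exact ⟨mem_univ _, h.2 ▸ i.2⟩
      · rintro ⟨-, hy⟩
        exact ⟨⟨y, hy⟩, x, rfl⟩
    rw [h1]
    exact dense_univ.prod hDd

end Pool.Agent.Results.MP_0f8365_gt.SeparableFactor
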